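import Pool.Agent.Y967.EU.Main
import Pool.Agent.Y967.EU.Ineq
import Pool.Agent.Y967.EU.Ana
import Pool.Agent.Y967.EU.Val
import Pool.Agent.Y967.EU.Euls
import Pool.Agent.Y967.EU.Flow
import Pool.Agent.Y967.EU.Keys
import Pool.Agent.Y967.EU.Keyt
import Pool.Agent.Y967.EU.Anf

/-!
# Real-analytic Turing complete stationary Euler flows on the round `𝕊³` and on the flat `𝕋³`

The flow of `(-x₁, x₀, -G(ρ) x₃, G(ρ) x₂)`, `ρ = x₀² + x₁²`, on the sphere is a linear flow with the
frequencies `1` and `G(ρ)` on every torus `ρ = const`. The entire function `G` is chosen so that at the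
points `ρ_k = 1/(1 + 4^k)` its value is `A_k / q_k + δ_k` with an integer `A_k`, an explicit denominator
`q_k` and a real number `δ_k`, tiny compared with `1 / q_k²`, which is different from `0` if and only if
the universal machine started in the configuration number `k` halts: the halting time `t` of the
configuration `n` enters through the term `2^(-K 4^(t+1)) ∏_{j ≤ t, j ≠ n} (z - ρ_j)`, which vanishes at
all the other points `ρ_j`, `j ≤ t`. If `δ_k = 0` the orbit on the torus `ρ = ρ_k` is closed and avoids a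
ball of radius `c / q_k`; if `δ_k ≠ 0` it comes back to all points of a fine net of a circle, and meets
the ball. The shear flow `(0, 1, G(sin² (π x₀)))` of the flat torus behaves in the same way.
-/

set_option autoImplicit false

open Finset Polynomial Turing

namespace Pool.Agent.Results.MP_e7e3bc_an.AnalyticBothManifolds

open Pool.Agent.H870R3 (E3 TM IsSteadyEuler OrbitMeets)

/-! ### Rational data -/

/-- The rational number with numerator `a.1` and denominator `a.2`. -/
noncomputable def rat (a : ℕ × ℕ) : ℝ := (a.1 : ℝ) / (a.2 : ℝ)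

/-- Triples of rational numbers. -/
abbrev Rat3 : Type := (ℕ × ℕ) × (ℕ × ℕ) × (ℕ × ℕ)

/-- Quadruples of rational numbers. -/
abbrev Rat4 : Type := (ℕ × ℕ) × (ℕ × ℕ) × (ℕ × ℕ) × (ℕ × ℕ)

/-- Euclidean space `ℝ⁴`. -/
abbrev E4 : Type := EuclideanSpace ℝ (Fin 4)

/-- The point of `ℝ⁴` with the rational coordinates `c`. -/
noncomputable def point4 (c : Rat4) : E4 := !₂[rat c.1, rat c.2.1, rat c.2.2.1, rat c.2.2.2]

/-- The point of `𝕋³ = ℝ³/ℤ³` with the coordinates `c` in the chart `(tan (π x₀), x₁, x₂)`. -/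
noncomputable def pointT (c : Rat3) : E3 :=
  !₂[Real.arctan (rat c.1) / Real.pi, rat c.2.1, rat c.2.2]

/-- The open box with the rational corners `c` and `d`. -/
def box (c d : Rat3) : Set E3 :=
  {y | (rat c.1 < y 0 ∧ y 0 < rat d.1) ∧ (rat c.2.1 < y 1 ∧ y 1 < rat d.2.1) ∧
    (rat c.2.2 < y 2 ∧ y 2 < rat d.2.2)}

/-! ### Vector fields on the round sphere -/

/-- The tangential part `v - ⟨x, v⟩ x` of the vector `v` at the point `x` of the unit sphere. -/
noncomputable def tang (x v : E4) : E4 := v - inner ℝ x v • x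

/-- The coordinate unit vectors. -/
noncomputable def unit (i : Fin 4) : E4 := EuclideanSpace.single i 1

/-- The restriction of `X` to the unit sphere `𝕊³` is a stationary Euler flow on the round sphere:
`X` is smooth and tangent to the sphere, its divergence on the sphere (the trace of `D X` over the
tangent space) is `0`, and `∇_X X = - ∇ p` on the sphere for some smooth `p`, where the Levi-Civita
connection and the gradient of the round sphere are the tangential parts of the Euclidean ones. -/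
structure IsSteadyEulerS3 (X : E4 → E4) : Prop where
  smooth : ContDiff ℝ (⊤ : ℕ∞) X
  tangent : ∀ x : E4, ‖x‖ = 1 → inner ℝ x (X x) = 0
  div_free : ∀ x : E4, ‖x‖ = 1 → ∑ i, (fderiv ℝ X x (unit i)) i - inner ℝ x (fderiv ℝ X x x) = 0
  euler : ∃ p : E4 → ℝ, ContDiff ℝ (⊤ : ℕ∞) p ∧
    ∀ x : E4, ‖x‖ = 1 → tang x (fderiv ℝ X x (X x)) = - tang x (gradient p x)

/-- The forward orbit of `x` under the flow of `X` meets `V`. -/
def Meets (X : E4 → E4) (x : E4) (V : Set E4) : Prop :=
  ∃ γ : ℝ → E4, γ 0 = x ∧ (∀ t, HasDerivAt γ (X (γ t)) t) ∧ ∃ t : ℝ, 0 ≤ t ∧ γ t ∈ V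

/-- The vector field `X` on the round sphere is Turing complete: for some universal Turing machine
`U` there are computable maps assigning to every initial configuration `c` of `U` a point `p c` of
the sphere with rational coordinates and a ball `V c` with rational center and rational radius such
that `U` halts on `c` if and only if the forward orbit of `X` through `p c` meets `V c`. -/
def TuringCompleteS3 (X : E4 → E4) : Prop :=
  ∃ U : TM, U.IsUniversal ∧
    ∃ (p : List (Fin (U.k + 1)) × List (Fin (U.k + 1)) → Rat4)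
      (V : List (Fin (U.k + 1)) × List (Fin (U.k + 1)) → Rat4 × (ℕ × ℕ)),
      Computable p ∧ Computable V ∧ ∀ c, ‖point4 (p c)‖ = 1 ∧
        (U.Halts (U.init c) ↔ Meets X (point4 (p c)) (Metric.ball (point4 (V c).1) (rat (V c).2)))

/-- The vector field `X` on the flat torus `ℝ³/ℤ³` is Turing complete: the same with points which
have rational coordinates in the chart `(tan (π x₀), x₁, x₂)` and boxes with rational corners. -/
def TuringCompleteT3 (X : E3 → E3) : Prop :=
  ∃ U : TM, U.IsUniversal ∧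
    ∃ (p : List (Fin (U.k + 1)) × List (Fin (U.k + 1)) → Rat3)
      (V : List (Fin (U.k + 1)) × List (Fin (U.k + 1)) → Rat3 × Rat3),
      Computable p ∧ Computable V ∧
        ∀ c, U.Halts (U.init c) ↔ OrbitMeets X (pointT (p c)) (box (V c).1 (V c).2)

/-! ### The vector fields -/

/-- The entire function
`P(z) + ∑_t 2^(-K 4^(t+1)) ∑_{n ≤ t, b(n,t)} ∏_{j ≤ t, j ≠ n} (z - 1/(1 + 4^j))`. -/
noncomputable def profile (P : ℚ[X]) (b : ℕ → ℕ → Bool) (K : ℕ) (z : ℂ) : ℂ :=
  aeval z P + ∑' t : ℕ, (1 / 2) ^ (K * 4 ^ (t + 1)) * ∑ n ∈ range (t + 1),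
    if b n t = true then ∏ j ∈ (range (t + 1)).erase n, (z - ((1 / (1 + 4 ^ j) : ℝ) : ℂ)) else 0

/-- The vector field `(-x₁, x₀, -G(ρ) x₃, G(ρ) x₂)` with `ρ = x₀² + x₁²`; `G = 1` is the Hopf
field. -/
noncomputable def sphereField (G : ℂ → ℂ) (x : E4) : E4 :=
  !₂[-x 1, x 0, -((G ((x 0 ^ 2 + x 1 ^ 2 : ℝ))).re * x 3), (G ((x 0 ^ 2 + x 1 ^ 2 : ℝ))).re * x 2]

/-- The vector field `(0, 1, G(sin² (π x₀)))`. -/
noncomputable def torusField (G : ℂ → ℂ) (x : E3) : E3 :=
  !₂[0, 1, (G ((Real.sin (Real.pi * x 0) ^ 2 : ℝ))).re]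

/-- `G` is entire and real on the real line, and both vector fields defined by `G` are
real-analytic, stationary Euler flows and Turing complete. -/
structure Good (G : ℂ → ℂ) : Prop where
  entire : Differentiable ℂ G
  real : ∀ x : ℝ, (G x).im = 0
  analyticS : AnalyticOnNhd ℝ (sphereField G) Set.univ
  eulerS : IsSteadyEulerS3 (sphereField G)
  turingS : TuringCompleteS3 (sphereField G)
  analyticT : AnalyticOnNhd ℝ (torusField G) Set.univ
  eulerT : IsSteadyEuler (torusField G)
  turingT : TuringCompleteT3 (torusField G)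

open Pool.Agent.Y967.EU in
theorem torus_eq (G : ℂ → ℂ) : torusField G =
    Pool.Agent.H870R3.shearF fun s : ℝ => (G ((Real.sin (Real.pi * s) ^ 2 : ℝ))).re := by
  funext x
  ext i
  fin_cases i <;> simp [torusField, Pool.Agent.H870R3.shearF, Pool.Agent.H870R3.ee]

open Pool.Agent.Y967.EU in
theorem sphere_eq (G : ℂ → ℂ) : sphereField G = fieldS fun x : ℝ => (G x).re := rfl

open Pool.Agent.Y967.EU in
theorem profile_eq (P : ℚ[X]) (b : ℕ → ℕ → Bool) (K : ℕ) (z : ℂ) :
    profile P b K z = aeval z P + ser b K z := rfl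

open Pool.Agent.Y967.EU Pool.Agent.Y967.EU.Main in
theorem good (h_ana : S_ANA) (h_val : S_VAL) (h_euls : S_EULS) (h_flow : S_FLOW)
    (h_keys : S_KEYS) (h_keyt : S_KEYT) (h_anf : S_ANF) :
    ∃ b : ℕ → ℕ → Bool, Computable₂ b ∧ ∀ P : ℚ[X], ∃ K₀ : ℕ, ∀ K : ℕ, K₀ ≤ K →
      Good (profile P b K) := by
  obtain ⟨U, hU⟩ := Pool.Agent.H870R3.exists_universal
  obtain ⟨b, hb, hb1, hb2⟩ := Comp.hal (hal U) (hal_computable U)
  refine ⟨b, hb, fun P => ?_⟩
  obtain ⟨D, m, M, K₀, hK₀, hmain⟩ := vals h_ana h_val Ineq.ratn Ineq.ineq P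
  refine ⟨K₀, fun K hK => ?_⟩
  have hser := h_ana.1 b K (by omega)
  have hent : Differentiable ℂ (profile P b K) := by
    have h1 : Differentiable ℂ fun z : ℂ => aeval z P := Polynomial.differentiable_aeval P
    exact h1.add hser.1
  obtain ⟨a1, a2, a3⟩ := h_anf _ hent
  obtain ⟨q1, q2, q3⟩ := Comp.prim
  obtain ⟨q4, q5⟩ := q3 D m K M
  have hF : ContDiff ℝ (⊤ : ℕ∞) fun x : ℝ => (profile P b K x).re :=
    contDiff_iff_contDiffAt.2 fun x => (a1 x (Set.mem_univ x)).contDiffAt
  have hhalt : ∀ c, U.Halts (U.init c) ↔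
      ∃ t, Encodable.encode c ≤ t ∧ b (Encodable.encode c) t = true := by
    intro c
    rw [hal_iff, ← hb2]
  have hE := h_euls _ hF
  refine ⟨hent, ?_, a2, ⟨hE.1, hE.2, hE.3, hE.4⟩, ?_, ?_, ?_, ?_⟩
  · intro x
    rw [profile_eq, Complex.add_im, hser.2.1 x]
    have haev : aeval (x : ℂ) P = ((aeval x P : ℝ) : ℂ) := by
      rw [Complex.coe_algebraMap.symm, Polynomial.aeval_algebraMap_apply]
    rw [haev, Complex.ofReal_im, add_zero]
  · refine ⟨U, hU, fun c => pS (Encodable.encode c),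
      fun c => VS M (Q D m K (Encodable.encode c)) (Encodable.encode c),
      (q1.comp Primrec.encode).to_comp, (q4.comp Primrec.encode).to_comp, fun c => ?_⟩
    set k := Encodable.encode c with hk
    refine ⟨pS_norm k, ?_⟩
    obtain ⟨A, δ, e1, e2, e3, e4, e5⟩ := hmain K hK b hb1 k
    rw [hhalt, ← e5]
    show _ ↔ Pool.Agent.Y967.EU.Main.Meets (fieldS fun x : ℝ => (profile P b K x).re) (pt4 (pS k))
      (Metric.ball (pt4 (VS M (Q D m K k) k).1) (Pool.Agent.Y967.EU.rat (VS M (Q D m K k) k).2))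
    rw [meets_iff h_flow, pS_rho, profile_eq, e1]
    exact (h_keys k (Q D m K k) M A δ e2 e3 e4).symm
  · rw [torus_eq]
    exact a3
  · rw [torus_eq]
    apply Pool.Agent.H870R3.shear_steady
    · have h1 : ContDiff ℝ (⊤ : ℕ∞) fun s : ℝ => Real.sin (Real.pi * s) ^ 2 :=
        (Real.contDiff_sin.comp (contDiff_const.mul contDiff_id)).pow 2
      exact hF.comp h1
    · intro s n
      have h : Real.sin (Real.pi * (s + n)) ^ 2 = Real.sin (Real.pi * s) ^ 2 := by
        rw [Real.sin_sq_eq_half_sub, Real.sin_sq_eq_half_sub]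
        have : 2 * (Real.pi * (s + n)) = 2 * (Real.pi * s) + n * (2 * Real.pi) := by ring
        rw [this, Real.cos_add_int_mul_two_pi]
      simp only [h]
  · rw [torus_eq]
    refine ⟨U, hU, fun c => pT (Encodable.encode c),
      fun c => VT M (Q D m K (Encodable.encode c)),
      (q2.comp Primrec.encode).to_comp, (q5.comp Primrec.encode).to_comp, fun c => ?_⟩
    set k := Encodable.encode c with hk
    obtain ⟨A, δ, e1, e2, e3, e4, e5⟩ := hmain K hK b hb1 k
    rw [hhalt, ← e5]
    refine (h_keyt k (Q D m K k) M A δ _ ?_ e3 e4 ?_).symm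
    · exact le_trans (Nat.one_le_two_pow) e2
    · show (profile P b K ((Real.sin (Real.pi * (ptT (pT k)) 0) ^ 2 : ℝ))).re = _
      rw [pT_sin, profile_eq, e1]

open Pool.Agent.Y967.EU in
/-- There is a computable `b : ℕ × ℕ → {0, 1}` such that for every polynomial `P` with rational
coefficients and all large `K`, the entire function `G = profile P b K` is real on the real line, and
both vector fields `(-x₁, x₀, -G(ρ) x₃, G(ρ) x₂)`, `ρ = x₀² + x₁²`, on the round sphere `𝕊³`, and
`(0, 1, G(sin² (π x₀)))` on the flat torus `𝕋³`, are real-analytic, stationary Euler flows and Turing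
complete. Every entire function `G₀` which is real on the real line (`G₀ = 1` gives the Hopf field on
`𝕊³`) is the limit, uniformly on compact sets, of such functions `G`. -/
theorem result : ∃ b : ℕ → ℕ → Bool, Computable₂ b ∧
    (∀ P : ℚ[X], ∃ K₀ : ℕ, ∀ K : ℕ, K₀ ≤ K → Good (profile P b K)) ∧
    ∀ G₀ : ℂ → ℂ, Differentiable ℂ G₀ → (∀ x : ℝ, (G₀ x).im = 0) → ∀ R ε : ℝ, 0 < ε →
      ∃ (P : ℚ[X]) (K : ℕ), Good (profile P b K) ∧
        ∀ z : ℂ, ‖z‖ ≤ R → ‖profile P b K z - G₀ z‖ ≤ ε := by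
  have h_ana : S_ANA := Pool.Agent.Y967.EU.ana
  obtain ⟨b, hb, hgood⟩ := good h_ana Pool.Agent.Y967.EU.val euls flow (keys step) keyt anf
  refine ⟨b, hb, hgood, fun G₀ hG hG' R ε hε => ?_⟩
  obtain ⟨P, hP⟩ := dens G₀ hG hG' R (ε / 2) (by positivity)
  obtain ⟨K₀, hK₀⟩ := hgood P
  obtain ⟨K₁, hK₁⟩ := h_ana.2 R (ε / 2) (by positivity)
  refine ⟨P, max K₀ K₁, hK₀ _ (le_max_left _ _), fun z hz => ?_⟩
  rw [profile_eq]
  have h1 := hP z hz
  have h2 := hK₁ (max K₀ K₁) (le_max_right _ _) b z hz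
  calc ‖aeval z P + ser b (max K₀ K₁) z - G₀ z‖ = ‖(aeval z P - G₀ z) + ser b (max K₀ K₁) z‖ := by
        congr 1; ring
    _ ≤ ‖aeval z P - G₀ z‖ + ‖ser b (max K₀ K₁) z‖ := norm_add_le _ _
    _ ≤ ε / 2 + ε / 2 := add_le_add h1 h2
    _ = ε := by ring

end Pool.Agent.Results.MP_e7e3bc_an.AnalyticBothManifolds
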